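import Pool.Agent.helper96.PP2.SpecA

/-! # Row pg:CIN: facts on the induced module -/

set_option autoImplicit false

namespace Pool.Agent.PP2

open Topology

section

variable (p : ℕ) {G : Type} [Group G] (N : Subgroup G)

theorem CIN_smul (g : G) (f : IndF p N) (x : G) : (g • f).1 x = f.1 (x * g) := rfl

/-- The induced module as the set of functions on the right cosets. -/
def CIN_equiv : IndF p N ≃ (Quotient (QuotientGroup.rightRel N) → ZMod p) where
  toFun f := fun q => Quotient.liftOn q f.1 fun a b hab => by
    have h1 : b * a⁻¹ ∈ N := QuotientGroup.rightRel_apply.mp hab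
    have h2 := f.2 _ h1 a
    rw [inv_mul_cancel_right] at h2
    exact h2.symm
  invFun F := ⟨fun x => F (Quotient.mk _ x), fun v hv x => by
    have h1 : (Quotient.mk (QuotientGroup.rightRel N) (v * x)) = Quotient.mk _ x := by
      refine Quotient.sound ?_
      refine QuotientGroup.rightRel_apply.mpr ?_
      have e : x * (v * x)⁻¹ = v⁻¹ := by group
      rw [e]
      exact N.inv_mem hv
    exact congrArg F h1⟩
  left_inv f := by
    apply Subtype.ext
    funext x
    rfl
  right_inv F := by
    funext q
    refine Quotient.inductionOn q fun x => ?_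
    rfl

theorem CIN_const (f : IndF p N) (hf : ∀ g : G, g • f = f) (x : G) : f.1 x = f.1 1 := by
  have h := congrArg (fun F : IndF p N => F.1 1) (hf x)
  have h2 : f.1 (1 * x) = f.1 1 := h
  rw [one_mul] at h2
  exact h2

/-- The fixed elements are the constant functions. -/
def CIN_h0 : H0 G (IndF p N) ≃ ZMod p where
  toFun f := f.1.1 1
  invFun c := ⟨⟨fun _ => c, fun _ _ _ => rfl⟩, fun _ => rfl⟩
  left_inv f := by
    apply Subtype.ext
    apply Subtype.ext
    funext x
    exact (CIN_const p N f.1 f.2 x).symm
  right_inv c := rfl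

end

theorem CIN_row : CIN_stmt := by
  intro p G _ _ _ _ N hN hp
  have hne : NeZero p := ⟨hp.ne_zero⟩
  have hfin : Finite (G ⧸ N) := Subgroup.quotient_finite_of_isOpen N hN
  have hfinR : Finite (Quotient (QuotientGroup.rightRel N)) :=
    Finite.of_equiv _ (QuotientGroup.quotientRightRelEquivQuotientLeftRel N).symm
  refine ⟨Finite.of_equiv _ (CIN_equiv p N).symm, ?_, ?_, ?_, ?_⟩
  · rw [Nat.card_congr (CIN_equiv p N), Nat.card_fun, Nat.card_zmod,
      Nat.card_congr (QuotientGroup.quotientRightRelEquivQuotientLeftRel N)]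
    rfl
  · intro a
    apply Subtype.ext
    funext x
    have h : p • (a.1 x) = 0 := by
      rw [nsmul_eq_mul, ZMod.natCast_self, zero_mul]
    exact h
  · intro a
    have hlc : IsLocallyConstant a.1 := by
      rw [IsLocallyConstant.iff_exists_open]
      intro x
      refine ⟨{y | y * x⁻¹ ∈ N}, ?_, ?_, ?_⟩
      · exact hN.preimage (continuous_mul_const x⁻¹)
      · show x * x⁻¹ ∈ N
        rw [mul_inv_cancel]
        exact N.one_mem
      · intro y hy
        have h2 := a.2 _ hy x
        rw [inv_mul_cancel_right] at h2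
        exact h2
    have hF : IsLocallyConstant (fun z : G × G => (a.1 (z.1 * z.2), a.1 z.1)) :=
      (hlc.comp_continuous continuous_mul).prodMk (hlc.comp_continuous continuous_fst)
    have hcl : IsClosed {z : G × G | a.1 (z.1 * z.2) ≠ a.1 z.1} := by
      refine ⟨?_⟩
      have h1 : IsOpen ((fun z : G × G => (a.1 (z.1 * z.2), a.1 z.1)) ⁻¹'
          {w : ZMod p × ZMod p | w.1 = w.2}) := hF _
      have h2 : {z : G × G | a.1 (z.1 * z.2) ≠ a.1 z.1}ᶜ =
          ((fun z : G × G => (a.1 (z.1 * z.2), a.1 z.1)) ⁻¹'
            {w : ZMod p × ZMod p | w.1 = w.2}) := by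
        ext z
        exact not_not
      rw [h2]
      exact h1
    have himg := (isClosedMap_snd_of_compactSpace (X := G) (Y := G)) _ hcl
    have h3 : {g : G | g • a = a} =
        (Prod.snd '' {z : G × G | a.1 (z.1 * z.2) ≠ a.1 z.1})ᶜ := by
      ext g
      constructor
      · rintro hg ⟨⟨x, g'⟩, hz, hzg⟩
        have hg' : g' = g := hzg
        subst hg'
        have h4 := congrArg (fun F : IndF p N => F.1 x) hg
        exact hz h4
      · intro hg
        apply Subtype.ext
        funext x
        by_contra hx
        exact hg ⟨(x, g), hx, rfl⟩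
    rw [h3]
    exact himg.isOpen_compl
  · unfold h0
    rw [Nat.card_congr (CIN_h0 p N), Nat.card_zmod]

end Pool.Agent.PP2
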