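import Pool.Agent.helper96.PP2.SpecC

/-! # Row pg:MTH: main theorem for closed subgroups of the congruence group -/

set_option autoImplicit false

namespace Pool.Agent.PP2

open Topology Matrix

theorem MTH_sN_le {R : Type} [CommRing R] (n : ℕ) (N : AddSubgroup (M2 R)) :
    sN ((n : R)) N ≤ N := by
  rintro _ ⟨X, hX, rfl⟩
  have e : (DistribSMul.toAddMonoidHom (M2 R) (n : R)) X = n • X := by
    show (n : R) • X = n • X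
    rw [Nat.cast_smul_eq_nsmul]
  rw [e]
  exact N.nsmul_mem hX n

theorem MTH_row (hFNB : FNB_stmt) (hSUB : SUB_stmt) (hADM : ADM_stmt) (hAPX : APX_stmt)
    (hSOL : SOL_stmt) (hTDG : TDG_stmt) (hHCL : HCL_stmt) (hTFL : TFL_stmt) (hVAD : VAD_stmt)
    (hRNK : RNK_stmt) (hPMV : PMV_stmt) (hUNF : UNF_stmt) : MTH_stmt := by
  intro p R _ _ _ _ _ _ J hp hp2 hS Γ hΓ hΓc hH
  by_cases h : ∀ X ∈ Lc Γ 1, ∀ Y ∈ Lc Γ 1, ∀ Z ∈ Lc Γ 1, ∀ W ∈ Lc Γ 1, Tf X Y Z • W = 0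
  · exact hSOL p R J hp hp2 hS Γ hΓ h
  exfalso
  push Not at h
  obtain ⟨X, hX, Y, hY, Z, hZ, W, _, hne⟩ := h
  have hT : Tf X Y Z ≠ 0 := by
    intro h0
    rw [h0, zero_smul] at hne
    exact hne rfl
  obtain ⟨V, hV, hVle, h1, h2, h3, hidx⟩ := hVAD p R J hp hp2 hS Γ hΓ hΓc hH X hX Y hY Z hZ
  have htor : ∀ W ∈ V, (p : R) • W = 0 → W = 0 := fun W hW h0 =>
    hTFL p R J hp hp2 hS Γ hΓ hΓc hH W (hVle hW) h0
  obtain ⟨d, hd, hidx2⟩ := hRNK p R J hp hp2 hS V X Y Z h1 h2 h3 htor hidx hT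
  obtain ⟨hU, hUi⟩ := hUNF p R J hp hp2 hS V d hV htor hidx2
  have hAdm2 : Adm J (sN ((p : R) ^ 2) V) := (hPMV p R J hp hp2 hS V hV 2 2 le_rfl).1
  have hUcl : IsClosed (ES J (sN ((p : R) ^ 2) V) : Set (GL (Fin 2) R)) :=
    ((hSUB p R J hp hp2 hS).2 _ hAdm2).2
  have hle : sN ((p : R) ^ 2) V ≤ Lc Γ 1 := by
    have e : ((p : R) ^ 2) = ((p ^ 2 : ℕ) : R) := by push_cast; ring
    rw [e]
    exact (MTH_sN_le (p ^ 2) V).trans hVle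
  have hUle : ES J (sN ((p : R) ^ 2) V) ≤ ES J (Lc Γ 1) :=
    Subgroup.closure_mono fun g hg => ⟨hg.1, hle hg.2⟩
  have hUΓ : ES J (sN ((p : R) ^ 2) V) ≤ Γ := hUle.trans (hAPX p R J hp hp2 hS Γ hΓ hΓc)
  have hH3 : H3Zero p (ES J (sN ((p : R) ^ 2) V)) := hHCL p R J hp hS Γ _ hΓc hUcl hUΓ hH
  obtain ⟨hc, _, _⟩ := hTDG p R J hS
  have hcU : CompactSpace (ES J (sN ((p : R) ^ 2) V)) :=
    isCompact_iff_compactSpace.mp hUcl.isCompact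
  exact hFNB p (ES J (sN ((p : R) ^ 2) V)) _ d hp hp2 hU hUi hd hH3

end Pool.Agent.PP2
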