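import Pool.Agent.helper96.PP2.SpecA

/-! # Row pg:TOR: no elements of order p -/

set_option autoImplicit false

namespace Pool.Agent.PP2

open Topology

theorem TOR_row (hTRS : TRS_stmt) (hCLS : CLS_stmt) : TOR_stmt := by
  intro p G _ _ _ _ _ _ hp hG g hg
  by_contra hne
  have hf : Fact p.Prime := ⟨hp⟩
  have hord : orderOf g = p := orderOf_eq_prime hg hne
  have hcard : Nat.card (Subgroup.zpowers g) = p := by
    rw [Nat.card_zpowers, hord]
  have hfin : Finite (Subgroup.zpowers g) :=
    Nat.finite_of_card_ne_zero (by rw [hcard]; exact hp.ne_zero)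
  have hcl : IsClosed (Subgroup.zpowers g : Set G) :=
    Set.Finite.isClosed (Set.toFinite _)
  exact hTRS p (Subgroup.zpowers g) hp hcard (hCLS p G hp hG (Subgroup.zpowers g) hcl)

end Pool.Agent.PP2
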